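import Pool.Agent.W619.Y.Stm5
import Pool.Agent.W619.PQ.Alg

/-! If one of the curves is rational, then `Y × C 1 × ... × C n` is ruled. -/

set_option autoImplicit false
set_option linter.overlappingInstances false
set_option linter.unusedSectionVars false

universe u v

open Polynomial FF IntermediateField

namespace Pool.Agent.W318.PG.URAT

open Pool.Agent.W603.LV Pool.Agent.W619.PQ Pool.Agent.W619.Y

section

variable {k L : Type*} [Field k] [Field L] [Algebra k L]

theorem alg_of_basis (M : IntermediateField k L) (s : Set M)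
    (hs : IsTranscendenceBasis k (Subtype.val : s → M)) (S : IntermediateField k L)
    (hsS : ∀ y ∈ s, (y : L) ∈ S) (z : M) : IsAlgebraic S (z : L) := by
  have h := hs.isAlgebraic.isAlgebraic z
  have hle : Algebra.adjoin k (Set.range (Subtype.val : s → M)) ≤
      (S.comap M.val).toSubalgebra := by
    rw [Algebra.adjoin_le_iff]
    rintro _ ⟨y, rfl⟩
    exact hsS y y.2
  let f : Algebra.adjoin k (Set.range (Subtype.val : s → M)) →+* S :=
    ((M.val : M →+* L).comp
      (algebraMap (Algebra.adjoin k (Set.range (Subtype.val : s → M))) M)).codRestrict S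
      fun y => hle y.2
  have hf : Function.Injective f := by
    intro a b hab
    have h1 : (M.val (a : M) : L) = M.val (b : M) := congrArg (Subtype.val : S → L) hab
    exact Subtype.ext (M.val.injective h1)
  exact h.ringHom_of_comp_eq f (M.val : M →+* L) hf (by ext y; rfl)

theorem factor {d n : ℕ} (M : IntermediateField k L) (F : Fin n → IntermediateField k L)
    [∀ i, IsFF k (F i)] [Algebra.EssFiniteType k M] (hd : Algebra.trdeg k M = d)
    (hn : Algebra.trdeg k L = (d + n : ℕ)) (hsup : M ⊔ (⨆ i, F i) = ⊤) (i0 : Fin n) (t : F i0)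
    (ht : k⟮t⟯ = ⊤) : ∃ M' : IntermediateField k L, Algebra.EssFiniteType k M' ∧
      Algebra.trdeg k M' + 1 = (d + n : ℕ) ∧ Transcendental M' (t : L) ∧ M'⟮(t : L)⟯ = ⊤ := by
  classical
  let ι := {j : Fin n // j ≠ i0}
  let M' : IntermediateField k L := M ⊔ ⨆ j : ι, F j.1
  have hle0 : M ≤ M' := le_sup_left
  have hle : ∀ j, j ≠ i0 → F j ≤ M' := fun j hj =>
    le_trans (le_iSup (fun j : ι => F j.1) ⟨j, hj⟩) le_sup_right
  have htop : M'⟮(t : L)⟯ = ⊤ := by
    have h1 : (⊤ : IntermediateField k L) ≤ M'⟮(t : L)⟯.restrictScalars k := by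
      rw [← hsup]
      refine sup_le ?_ (iSup_le fun j z hz => ?_)
      · intro z hz
        rw [mem_restrictScalars]
        exact M'⟮(t : L)⟯.algebraMap_mem ⟨z, hle0 hz⟩
      rw [mem_restrictScalars]
      by_cases hj : j = i0
      · subst hj
        have h2 : (⟨z, hz⟩ : F j) ∈ k⟮t⟯ := by rw [ht]; trivial
        have h3 : k⟮t⟯ ≤ (M'⟮(t : L)⟯.restrictScalars k).comap (F j).val := by
          rw [adjoin_simple_le_iff]
          exact mem_adjoin_simple_self M' _
        exact h3 h2
      · exact M'⟮(t : L)⟯.algebraMap_mem ⟨z, hle j hj hz⟩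
    rw [eq_top_iff]
    intro z _
    exact h1 (by trivial : z ∈ (⊤ : IntermediateField k L))
  have htt : Transcendental M' (t : L) := by
    intro halg
    choose x hx using fun i => IsFF.exists_transcendental (k := k) (K := F i)
    obtain ⟨s, hs⟩ := exists_isTranscendenceBasis k M
    let T : Set L := (Subtype.val '' s) ∪ Set.range fun j : ι => (x j.1 : L)
    let S : IntermediateField k L := adjoin k T
    let A : IntermediateField S L := algebraicClosure S L
    have hMA : ∀ z ∈ M', z ∈ A := by
      have h0 : M' ≤ A.restrictScalars k := by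
        refine sup_le ?_ (iSup_le fun j z hz => ?_)
        · intro z hz
          rw [mem_restrictScalars, mem_algebraicClosure_iff]
          exact alg_of_basis M s hs S
            (fun y hy => subset_adjoin k _ (Or.inl ⟨y, hy, rfl⟩)) ⟨z, hz⟩
        · rw [mem_restrictScalars, mem_algebraicClosure_iff]
          exact alg_of_mem (F j.1) (hx j.1) S (subset_adjoin k _ (Or.inr ⟨j, rfl⟩)) ⟨z, hz⟩
      intro z hz
      exact h0 hz
    let f : M' →+* A := (algebraMap M' L).codRestrict A fun z => hMA z z.2
    have hLA : ∀ z : L, IsAlgebraic S z := by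
      intro z
      have h1 : Algebra.IsAlgebraic M' M'⟮(t : L)⟯ := isAlgebraic_adjoin_simple halg.isIntegral
      have h2 : IsAlgebraic M' z := by
        have hz : z ∈ M'⟮(t : L)⟯ := by rw [htop]; trivial
        exact (h1.isAlgebraic ⟨z, hz⟩).algebraMap (A := L)
      have h3 : IsAlgebraic A z :=
        h2.ringHom_of_comp_eq f (RingHom.id L) f.injective (by ext z; rfl)
      exact h3.restrictScalars S
    have h4 : Algebra.IsAlgebraic (Algebra.adjoin k T) L := alg_adjoin hLA
    have h5 := Algebra.IsAlgebraic.trdeg_le_cardinalMk k T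
    rw [hn] at h5
    have h6 : Cardinal.mk (Set.range fun j : ι => (x j.1 : L)) ≤ ((n - 1 : ℕ) : Cardinal) := by
      have h7 : Cardinal.lift.{0} (Cardinal.mk (Set.range fun j : ι => (x j.1 : L))) ≤
          Cardinal.lift (Cardinal.mk ι) := Cardinal.mk_range_le_lift
      have h8 : Fintype.card ι = n - 1 := by
        rw [Fintype.card_subtype_compl, Fintype.card_fin, Fintype.card_subtype_eq]
      rw [Cardinal.mk_fintype ι, h8] at h7
      simpa using h7
    have h6' : Cardinal.mk (Subtype.val '' s : Set L) ≤ ((d : ℕ) : Cardinal) := by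
      have h7 : Cardinal.mk (Subtype.val '' s : Set L) ≤ Cardinal.mk s := Cardinal.mk_image_le
      have h8 := hs.cardinalMk_eq_trdeg
      rw [hd] at h8
      exact h7.trans h8.le
    have h7 : Cardinal.mk T ≤ ((d + (n - 1) : ℕ) : Cardinal) := by
      refine (Cardinal.mk_union_le _ _).trans ?_
      push_cast
      exact add_le_add h6' h6
    have h8 : d + n ≤ d + (n - 1) := by exact_mod_cast h5.trans h7
    have h9 : 0 < n := i0.pos
    omega
  have hFF : IsFF M' L := by
    refine IsFF.of_finite htt ?_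
    rw [htop]
    exact Module.Finite.of_surjective (Algebra.linearMap (⊤ : IntermediateField M' L) L)
      fun z => ⟨⟨z, trivial⟩, rfl⟩
  refine ⟨M', essFiniteType_iff.2 (fg_sup (essFiniteType_iff.1 inferInstance)
    (fg_iSup fun j => essFiniteType_iff.1 (IsFF.ess))), ?_, htt, htop⟩
  rw [← hn, ← trdeg_add_eq k M' (A := L), hFF.trdeg]

end

theorem main : S_URAT.{u, v} := by
  intro k L _ _ _ _ _ d n M F _ _ hd hn hsup ⟨i0, t, ht⟩
  obtain ⟨M', h1, h2, h3, h4⟩ := factor M F hd hn hsup i0 t ht
  refine ⟨⟨M', inferInstance, inferInstance, h1, h2, ⟨?_⟩⟩, M', (t : L), h3, h4⟩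
  let e1 : RatFunc M' ≃ₐ[M'] M'⟮(t : L)⟯ := RatFunc.algEquivOfTranscendental (t : L) h3
  let e2 : M'⟮(t : L)⟯ ≃ₐ[M'] L := (equivOfEq h4).trans topEquiv
  exact (((e1.trans e2).symm.restrictScalars k : L ≃ₐ[k] RatFunc M') : L →ₐ[k] RatFunc M')

end Pool.Agent.W318.PG.URAT
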